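import Pool.Agent.H16.SUn3

/-! Products of two conjugacy classes of the unitary group, as a relation between multisets of
eigenvalues. -/

namespace Pool.Agent.L0h60.SU4

open Matrix Pool.Agent.H16.SUn

variable {ι κ : Type} [Fintype ι] [DecidableEq ι] [Fintype κ] [DecidableEq κ]

/-- Involutions of the special unitary group, for any finite index type. -/
def IsInvol (A : Matrix ι ι ℂ) : Prop := A ∈ Matrix.specialUnitaryGroup ι ℂ ∧ A * A = 1

theorem isInvol_submatrix (e : ι ≃ κ) {A : Matrix κ κ ℂ} (h : IsInvol A) :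
    IsInvol (A.submatrix e e) := by
  obtain ⟨h1, h2⟩ := h
  rw [Matrix.mem_specialUnitaryGroup_iff, Matrix.mem_unitaryGroup_iff,
    Matrix.star_eq_conjTranspose] at h1
  refine ⟨?_, ?_⟩
  · rw [Matrix.mem_specialUnitaryGroup_iff, Matrix.mem_unitaryGroup_iff,
      Matrix.star_eq_conjTranspose, conjTranspose_submatrix, submatrix_mul_equiv, h1.1,
      submatrix_one_equiv, det_submatrix_equiv_self]
    exact ⟨rfl, h1.2⟩
  · rw [submatrix_mul_equiv, h2, submatrix_one_equiv]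

/-- Being a product of two involutions. -/
def Two (A : Matrix ι ι ℂ) : Prop := ∃ I1 I2, IsInvol I1 ∧ IsInvol I2 ∧ A = I1 * I2

theorem two_submatrix (e : ι ≃ κ) {A : Matrix κ κ ℂ} (h : Two A) : Two (A.submatrix e e) := by
  obtain ⟨I1, I2, h1, h2, rfl⟩ := h
  exact ⟨_, _, isInvol_submatrix e h1, isInvol_submatrix e h2, (submatrix_mul_equiv _ _ _ _ _).symm⟩

theorem two_of_pairing (σ : Equiv.Perm ι) (x : ι → ℂ) (h1 : ∀ y, σ (σ y) = y)
    (hx : ∀ y, star (x y) * x y = 1) (hc : ∀ y, x (σ y) = star (x y)) (hp : ∏ i, x i = 1)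
    (hf : ∃ f, σ f = f) : Two (Matrix.diagonal x) := by
  let e : ι ≃ Fin (Fintype.card ι) := Fintype.equivFin ι
  have key : Two (Matrix.diagonal (x ∘ e.symm)) := by
    obtain ⟨I1, I2, i1, i2, h⟩ := two_inv' (e.permCongr σ) (x ∘ e.symm)
      (fun y => by simp [Equiv.permCongr_apply, h1]) (fun y => hx _)
      (fun y => by simp [Equiv.permCongr_apply, hc])
      (by rw [← hp]; exact Equiv.prod_comp e.symm x)
      (Or.inr (by
        obtain ⟨f, hf⟩ := hf
        exact ⟨e f, by simp [Equiv.permCongr_apply, hf]⟩))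
    exact ⟨I1, I2, i1, i2, h⟩
  have h2 := two_submatrix e key
  rw [submatrix_diagonal_equiv] at h2
  have h3 : (x ∘ e.symm) ∘ e = x := by
    funext i
    simp
  rwa [h3] at h2

/-- Unitary matrices. -/
def Uni (P : Matrix ι ι ℂ) : Prop := Pᴴ * P = 1 ∧ P * Pᴴ = 1

theorem Uni.one : Uni (1 : Matrix ι ι ℂ) := by
  simp [Uni]

theorem Uni.mul {P Q : Matrix ι ι ℂ} (hP : Uni P) (hQ : Uni Q) : Uni (P * Q) := by
  refine ⟨?_, ?_⟩
  · rw [conjTranspose_mul]
    calc Qᴴ * Pᴴ * (P * Q) = Qᴴ * (Pᴴ * P) * Q := by simp only [Matrix.mul_assoc]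
      _ = 1 := by rw [hP.1, Matrix.mul_one, hQ.1]
  · rw [conjTranspose_mul]
    calc P * Q * (Qᴴ * Pᴴ) = P * (Q * Qᴴ) * Pᴴ := by simp only [Matrix.mul_assoc]
      _ = 1 := by rw [hQ.2, Matrix.mul_one, hP.2]

theorem Uni.conj {P : Matrix ι ι ℂ} (hP : Uni P) : Uni Pᴴ := by
  refine ⟨?_, ?_⟩
  · rw [conjTranspose_conjTranspose]; exact hP.2
  · rw [conjTranspose_conjTranspose]; exact hP.1

/-- `diagonal z` is a product of a conjugate of `diagonal x` and a conjugate of `diagonal y`. -/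
def PC (x y z : ι → ℂ) : Prop := ∃ P Q : Matrix ι ι ℂ, Uni P ∧ Uni Q ∧
  diagonal z = P * diagonal x * Pᴴ * (Q * diagonal y * Qᴴ)

theorem PC.mul (x y : ι → ℂ) : PC x y (fun i => x i * y i) :=
  ⟨1, 1, Uni.one, Uni.one, by simp⟩

theorem PC.reindex (e : ι ≃ κ) {x y z : κ → ℂ} (h : PC x y z) : PC (x ∘ e) (y ∘ e) (z ∘ e) := by
  obtain ⟨P, Q, hP, hQ, h⟩ := h
  have hU : ∀ {R : Matrix κ κ ℂ}, Uni R → Uni (R.submatrix e e) := by
    intro R hR
    refine ⟨?_, ?_⟩
    · rw [conjTranspose_submatrix, submatrix_mul_equiv, hR.1, submatrix_one_equiv]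
    · rw [conjTranspose_submatrix, submatrix_mul_equiv, hR.2, submatrix_one_equiv]
  refine ⟨P.submatrix e e, Q.submatrix e e, hU hP, hU hQ, ?_⟩
  rw [← submatrix_diagonal_equiv, ← submatrix_diagonal_equiv, ← submatrix_diagonal_equiv, h,
    conjTranspose_submatrix, conjTranspose_submatrix]
  simp only [submatrix_mul_equiv]

theorem PC.sum {x y z : ι → ℂ} {x' y' z' : κ → ℂ} (h : PC x y z) (h' : PC x' y' z') :
    PC (Sum.elim x x') (Sum.elim y y') (Sum.elim z z') := by
  obtain ⟨P, Q, hP, hQ, h⟩ := h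
  obtain ⟨P', Q', hP', hQ', h'⟩ := h'
  refine ⟨fromBlocks P 0 0 P', fromBlocks Q 0 0 Q', ?_, ?_, ?_⟩
  · simp [Uni, fromBlocks_conjTranspose, fromBlocks_multiply, hP.1, hP.2, hP'.1, hP'.2]
  · simp [Uni, fromBlocks_conjTranspose, fromBlocks_multiply, hQ.1, hQ.2, hQ'.1, hQ'.2]
  · rw [← fromBlocks_diagonal, ← fromBlocks_diagonal, ← fromBlocks_diagonal, h, h']
    simp only [fromBlocks_conjTranspose, fromBlocks_multiply, Matrix.mul_zero, Matrix.zero_mul,
      add_zero, zero_add, conjTranspose_zero]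

/-- The multiset of the values of a function on a finite type. -/
def spec (x : ι → ℂ) : Multiset ℂ := Finset.univ.val.map x

omit [DecidableEq ι] [DecidableEq κ] in
theorem spec_elim (x : ι → ℂ) (x' : κ → ℂ) : spec (Sum.elim x x') = spec x + spec x' := by
  unfold spec
  rw [← Finset.univ_disjSum_univ, Finset.val_disjSum, Multiset.disjSum, Multiset.map_add,
    Multiset.map_map, Multiset.map_map]
  rfl

omit [DecidableEq ι] [DecidableEq κ] in
theorem spec_comp (e : ι ≃ κ) (x : κ → ℂ) : spec (x ∘ e) = spec x := by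
  unfold spec
  rw [← Multiset.map_map]
  congr 1
  have := congrArg Finset.val (Finset.map_univ_equiv e)
  simp

theorem exists_equiv {x : ι → ℂ} {y : κ → ℂ} (h : spec x = spec y) :
    ∃ e : ι ≃ κ, x = y ∘ e := by
  have hc : ∀ c : ℂ, Nonempty ({i // x i = c} ≃ {j // y j = c}) := by
    intro c
    rw [← Fintype.card_eq]
    have h1 := congrArg (Multiset.count c) h
    unfold spec at h1
    rw [Multiset.count_map, Multiset.count_map] at h1
    rw [Fintype.card_subtype, Fintype.card_subtype, Finset.card_def, Finset.card_def,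
      Finset.filter_val, Finset.filter_val]
    simpa only [eq_comm] using h1
  let f : ∀ c : ℂ, {i // x i = c} ≃ {j // y j = c} := fun c => Classical.choice (hc c)
  exact ⟨Equiv.ofFiberEquiv f, funext fun a => (Equiv.ofFiberEquiv_map f a).symm⟩

/-- The relation `PC` for multisets of eigenvalues. -/
def PM (X Y Z : Multiset ℂ) : Prop := ∃ (k : ℕ) (x y z : Fin k → ℂ),
  spec x = X ∧ spec y = Y ∧ spec z = Z ∧ PC x y z

theorem PM.of_pc {x y z : ι → ℂ} (h : PC x y z) : PM (spec x) (spec y) (spec z) := by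
  let e : Fin (Fintype.card ι) ≃ ι := (Fintype.equivFin ι).symm
  exact ⟨_, x ∘ e, y ∘ e, z ∘ e, spec_comp e x, spec_comp e y, spec_comp e z, h.reindex e⟩

theorem PM.add {X Y Z X' Y' Z' : Multiset ℂ} (h : PM X Y Z) (h' : PM X' Y' Z') :
    PM (X + X') (Y + Y') (Z + Z') := by
  obtain ⟨k, x, y, z, rfl, rfl, rfl, h⟩ := h
  obtain ⟨k', x', y', z', rfl, rfl, rfl, h'⟩ := h'
  rw [← spec_elim, ← spec_elim, ← spec_elim]
  exact PM.of_pc (h.sum h')

theorem PM.single {u v w : ℂ} (h : w = u * v) : PM {u} {v} {w} := by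
  subst h
  exact PM.of_pc (ι := Fin 1) (PC.mul (fun _ => u) (fun _ => v))

end Pool.Agent.L0h60.SU4
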