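import Pool.Agent.L0h60.SU4.Two

/-! The two cases. -/

namespace Pool.Agent.L0h60.SU4

open Matrix Pool.Agent.H16.SUn

/-- The spectra of products of two involutions used here. -/
def SR (X : Multiset ℂ) : Prop := ∃ (N : Multiset ℂ) (ε : ℂ), X = N + N.map star + {ε, ε} ∧
  (∀ u ∈ N, star u * u = 1) ∧ (ε = 1 ∨ ε = -1)

theorem sum_real {u v h : ℂ} (hu : star u * u = 1) (hv : star v * v = 1) (hh : star h * h = 1)
    (huv : u * v = h * h) : ∃ t : ℝ, u + v = t * h := by
  have h1 : star ((u + v) * star h) = (u + v) * star h := by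
    rw [star_mul', star_star, star_add]
    have e1 : star u * u * (star v * v) * (star h * h) = 1 := by rw [hu, hv, hh]; ring
    have e2 : u * v * (star h * star h) = 1 := by
      rw [huv]
      linear_combination (star h * h + 1) * hh
    calc (star u + star v) * h
        = (star u + star v) * h * (u * v * (star h * star h)) := by rw [e2, mul_one]
      _ = (star u * u * v + star v * v * u) * (star h * h) * star h := by ring
      _ = (u + v) * star h := by rw [hu, hv, hh]; ring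
  obtain ⟨t, ht⟩ := Complex.conj_eq_iff_real.1 h1
  refine ⟨t, ?_⟩
  rw [← ht]
  linear_combination (-(u + v)) * hh

theorem mix {a b c : ℝ} (h1 : a ≤ b) (h2 : b ≤ c) : ∃ t : ℝ, 0 ≤ t ∧ t ≤ 1 ∧
    b = t * a + (1 - t) * c := by
  rcases eq_or_lt_of_le (h1.trans h2) with h | h
  · refine ⟨1, zero_le_one, le_rfl, ?_⟩
    linarith
  · refine ⟨(c - b) / (c - a), div_nonneg (by linarith) (by linarith), ?_, ?_⟩
    · rw [div_le_one (by linarith)]; linarith
    · have : c - a ≠ 0 := by linarith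
      field_simp
      ring

theorem mix' {a b c : ℝ} (h1 : c ≤ b) (h2 : b ≤ a) : ∃ t : ℝ, 0 ≤ t ∧ t ≤ 1 ∧
    b = t * a + (1 - t) * c := by
  obtain ⟨t, h3, h4, h5⟩ := mix h1 h2
  exact ⟨1 - t, by linarith, by linarith, by linarith⟩

theorem exists_unit_sqrt {D : ℂ} (hD : star D * D = 1) : ∃ h : ℂ, h * h = D ∧ star h * h = 1 := by
  obtain ⟨h, hh⟩ := IsAlgClosed.exists_pow_nat_eq D (n := 2) (by norm_num)
  refine ⟨h, by rw [← hh]; ring, ?_⟩
  have h1 : (star h * h) ^ 2 = 1 := by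
    rw [mul_pow, ← star_pow, hh, hD]
  have h2 : star h * h = ((‖h‖ ^ 2 : ℝ) : ℂ) := by
    have := Complex.conj_mul' h
    push_cast
    exact this
  rw [h2] at h1 ⊢
  have h3 : (‖h‖ ^ 2) ^ 2 = (1 : ℝ) := by exact_mod_cast h1
  have h4 : ‖h‖ ^ 2 = 1 := by
    have : 0 ≤ ‖h‖ ^ 2 := by positivity
    nlinarith
  rw [h4]
  simp

theorem normSq_mul_real {t : ℝ} {h w : ℂ} (hh : star h * h = 1) (hw : w = t * h) :
    Complex.normSq w = t ^ 2 := by
  have h1 : Complex.normSq h = 1 := by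
    have := Complex.normSq_eq_conj_mul_self (z := h)
    have h2 : ((Complex.normSq h : ℝ) : ℂ) = 1 := by rw [this]; exact hh
    exact_mod_cast h2
  rw [hw, Complex.normSq_mul, h1, Complex.normSq_ofReal]
  ring

theorem normSq_unit {h : ℂ} (hh : star h * h = 1) : h.re ^ 2 + h.im ^ 2 = 1 := by
  have := Complex.normSq_eq_conj_mul_self (z := h)
  have h2 : ((Complex.normSq h : ℝ) : ℂ) = 1 := by rw [this]; exact hh
  have h3 : Complex.normSq h = 1 := by exact_mod_cast h2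
  rw [Complex.normSq_apply] at h3
  linarith

theorem pair_eq (a b : ℂ) : ({a, b} : Multiset ℂ) = {a} + {b} := by
  rw [Multiset.singleton_add]; rfl

theorem sr_mk {N X : Multiset ℂ} {c ε : ℂ} (h : X = {c} + {star c} + (N + N.map star) + {ε} + {ε})
    (hc : star c * c = 1) (hN : ∀ u ∈ N, star u * u = 1) (hε : ε = 1 ∨ ε = -1) : SR X := by
  refine ⟨{c} + N, ε, ?_, ?_, hε⟩
  · rw [h, Multiset.map_add, Multiset.map_singleton, pair_eq]
    abel
  · intro u hu
    rw [Multiset.mem_add, Multiset.mem_singleton] at hu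
    rcases hu with rfl | hu
    · exact hc
    · exact hN u hu

/-- The first case. -/
theorem case_one {a b c : ℂ} {l : List ℂ} {r : ℕ} (ha : star a * a = 1) (hb : star b * b = 1)
    (hc : star c * c = 1) (hl : ∀ u ∈ l, star u * u = 1) (hlen : l.length = 2 * r + 1)
    (hp : a * b * c * l.prod = 1) (him : b.im * c.im ≤ 0) :
    ∃ X Y, SR X ∧ SR Y ∧ PM X Y ({a, b, c} + (l : Multiset ℂ)) := by
  have hD : star (b * c) * (b * c) = 1 := by
    rw [star_mul']
    linear_combination (star c * c) * hb + hc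
  obtain ⟨h, h1, h2⟩ := exists_unit_sqrt hD
  have habc : star (a * b * c) * (a * b * c) = 1 := by
    rw [mul_assoc, star_mul']
    linear_combination (star (b * c) * (b * c)) * ha + hD
  have ha' : star (star a) * star a = 1 := by rw [star_star, mul_comm]; exact ha
  obtain ⟨t0, ht0⟩ := sum_real hb hc h2 h1.symm
  obtain ⟨t1, ht1⟩ := sum_real ha' habc h2 (by rw [h1]; linear_combination (b * c) * ha)
  obtain ⟨t2, ht2⟩ := sum_real (u := 1) (v := b * c) (by simp) hD h2 (by rw [h1, one_mul])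
  have hle : t0 ^ 2 ≤ t2 ^ 2 := by
    rw [← normSq_mul_real h2 ht0, ← normSq_mul_real h2 ht2, Complex.normSq_apply,
      Complex.normSq_apply]
    simp only [Complex.add_re, Complex.add_im, Complex.mul_re, Complex.mul_im, Complex.one_re,
      Complex.one_im]
    have e1 := normSq_unit hb
    have e2 := normSq_unit hc
    nlinarith [mul_self_nonneg (b.re * c.re), e1, e2]
  have habs : |t0| ≤ |t2| := sq_le_sq.1 hle
  obtain ⟨κ, hκ, t, k0, k1, hk⟩ : ∃ κ : ℝ, (κ = 1 ∨ κ = -1) ∧ ∃ t : ℝ, 0 ≤ t ∧ t ≤ 1 ∧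
      t0 = t * t1 + (1 - t) * (κ * t2) := by
    have hpos : ∃ κ : ℝ, (κ = 1 ∨ κ = -1) ∧ κ * t2 = |t2| := by
      rcases abs_cases t2 with ⟨h, -⟩ | ⟨h, -⟩
      · exact ⟨1, Or.inl rfl, by rw [h]; ring⟩
      · exact ⟨-1, Or.inr rfl, by rw [h]; ring⟩
    obtain ⟨κ, hκ, hκ2⟩ := hpos
    rcases le_total t1 t0 with h | h
    · refine ⟨κ, hκ, mix h ?_⟩
      rw [hκ2]
      exact (le_abs_self _).trans habs
    · refine ⟨-κ, ?_, mix' ?_ h⟩
      · rcases hκ with rfl | rfl <;> simp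
      · rw [neg_mul, hκ2]
        have := neg_abs_le t0
        linarith
  have hκ' : (κ : ℂ) = 1 ∨ (κ : ℂ) = -1 := by
    rcases hκ with rfl | rfl
    · left; simp
    · right; simp
  have hκs : star (κ : ℂ) = κ := by simp
  have hκ2 : (κ : ℂ) * κ = 1 := by
    rcases hκ' with h | h <;> rw [h] <;> ring
  have hs : star (κ * (a * b * c)) * (κ * (a * b * c)) = 1 := by
    rw [star_mul', hκs]
    linear_combination (star (a * b * c) * (a * b * c)) * hκ2 + habc
  have p1 : PM {a} {1} {a} := PM.single (by ring)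
  have p2 : PM {star a, (κ : ℂ)} {1, κ * (a * b * c)} {b, c} := by
    refine PM.two ha' (by rw [hκs]; exact hκ2) (by simp) hs ?_ k0 k1 ?_
    · linear_combination (-(b * c)) * ha - (star a * a * b * c) * hκ2
    · have e1 : b + c = ((t * t1 + (1 - t) * (κ * t2) : ℝ) : ℂ) * h := by rw [← hk]; exact ht0
      push_cast at e1
      rw [e1]
      linear_combination (-(t : ℂ)) * ht1 - (1 - (t : ℂ)) * κ * ht2 - (t : ℂ) * (a * b * c) * hκ2 -
        (1 - (t : ℂ)) * κ * b * c * ha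
  obtain ⟨N, M, hN, hM, p3⟩ := path r l (κ * (a * b * c)) hlen hl hs
  have e3 : (κ : ℂ) * (a * b * c) * l.prod = κ := by
    linear_combination κ * hp
  rw [e3] at p3
  have p4 := (p1.add p2).add p3
  refine ⟨{a} + {star a, (κ : ℂ)} + (N + N.map star + {(κ : ℂ)}),
    {1} + {1, κ * (a * b * c)} + (M + M.map star + {star (κ * (a * b * c))}),
    sr_mk (c := a) (N := N) (ε := κ) ?_ ha hN hκ',
    sr_mk (c := κ * (a * b * c)) (N := M) (ε := 1) ?_ hs hM (Or.inl rfl), ?_⟩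
  · rw [pair_eq]
    abel
  · rw [pair_eq]
    abel
  · have e : ({a, b, c} : Multiset ℂ) = {a} + {b, c} := by
      rw [Multiset.singleton_add]; rfl
    rw [e]
    exact p4

/-- The unit complex number of a given argument. -/
noncomputable def ex (t : ℝ) : ℂ := Complex.exp (t * Complex.I)

theorem ex_add (s t : ℝ) : ex (s + t) = ex s * ex t := by
  unfold ex
  rw [← Complex.exp_add]
  congr 1
  push_cast
  ring

theorem ex_zero : ex 0 = 1 := by simp [ex]

theorem star_ex (t : ℝ) : star (ex t) = ex (-t) := by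
  unfold ex
  have : star (Complex.exp (t * Complex.I)) = Complex.exp (star (t * Complex.I)) :=
    (Complex.exp_conj _).symm
  rw [this]
  congr 1
  simp

theorem ex_unit (t : ℝ) : star (ex t) * ex t = 1 := by
  rw [star_ex, ← ex_add, neg_add_cancel, ex_zero]

theorem ex_sum (s t : ℝ) : ex s + ex t = ((2 * Real.cos ((s - t) / 2) : ℝ) : ℂ) * ex ((s + t) / 2) := by
  have h1 : ex s = ex ((s + t) / 2) * ex ((s - t) / 2) := by rw [← ex_add]; congr 1; ring
  have h2 : ex t = ex ((s + t) / 2) * ex (-((s - t) / 2)) := by rw [← ex_add]; congr 1; ring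
  have h3 : ((2 * Real.cos ((s - t) / 2) : ℝ) : ℂ) = ex ((s - t) / 2) + ex (-((s - t) / 2)) := by
    unfold ex
    push_cast
    rw [Complex.two_cos]
  rw [h3]
  nth_rw 1 [h1]
  nth_rw 1 [h2]
  ring

theorem ex_pi (j : ℤ) : ex ((2 * j + 1) * Real.pi) = -1 := by
  unfold ex
  have : (((2 * j + 1) * Real.pi : ℝ) : ℂ) * Complex.I = j * (2 * Real.pi * Complex.I) +
      Real.pi * Complex.I := by
    push_cast
    ring
  rw [this, Complex.exp_add, Complex.exp_int_mul_two_pi_mul_I, Complex.exp_pi_mul_I]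
  ring

theorem block {α α' φ ψ : ℝ} (h1 : α ≤ φ) (h2 : φ ≤ α') (h3 : 0 ≤ α) (h4 : α' ≤ Real.pi)
    (h5 : 0 ≤ ψ) (h6 : ψ ≤ Real.pi) :
    PM {-ex φ, -ex (-ψ)} {-1, -ex (α + α' - φ + ψ)} {ex α, ex α'} := by
  have c1 : Real.cos ((α - α') / 2) ≤ Real.cos ((φ - (α + α' - φ)) / 2) := by
    have := Real.cos_sub_cos ((α - α') / 2) ((φ - (α + α' - φ)) / 2)
    have e1 : ((α - α') / 2 + (φ - (α + α' - φ)) / 2) / 2 = -((α' - φ) / 2) := by ring
    have e2 : ((α - α') / 2 - (φ - (α + α' - φ)) / 2) / 2 = -((φ - α) / 2) := by ring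
    rw [e1, e2, Real.sin_neg, Real.sin_neg] at this
    have s1 : 0 ≤ Real.sin ((α' - φ) / 2) :=
      Real.sin_nonneg_of_nonneg_of_le_pi (by linarith) (by linarith)
    have s2 : 0 ≤ Real.sin ((φ - α) / 2) :=
      Real.sin_nonneg_of_nonneg_of_le_pi (by linarith) (by linarith)
    nlinarith [mul_nonneg s1 s2]
  have c2 : Real.cos ((α + α' + ψ - (-ψ)) / 2) ≤ Real.cos ((α - α') / 2) := by
    have := Real.cos_sub_cos ((α - α') / 2) ((α + α' + ψ - (-ψ)) / 2)
    have e1 : ((α - α') / 2 + (α + α' + ψ - (-ψ)) / 2) / 2 = (α + ψ) / 2 := by ring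
    have e2 : ((α - α') / 2 - (α + α' + ψ - (-ψ)) / 2) / 2 = -((α' + ψ) / 2) := by ring
    rw [e1, e2, Real.sin_neg] at this
    have s1 : 0 ≤ Real.sin ((α + ψ) / 2) :=
      Real.sin_nonneg_of_nonneg_of_le_pi (by linarith) (by linarith)
    have s2 : 0 ≤ Real.sin ((α' + ψ) / 2) :=
      Real.sin_nonneg_of_nonneg_of_le_pi (by linarith) (by linarith)
    nlinarith [mul_nonneg s1 s2]
  obtain ⟨t, t0, t1, ht⟩ := mix' c2 c1
  have u : ∀ x, star (-ex x) * (-ex x) = 1 := fun x => by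
    rw [star_neg, neg_mul_neg]; exact ex_unit x
  have f1 := ex_sum α α'
  have f2 := ex_sum φ (α + α' - φ)
  have f3 := ex_sum (α + α' + ψ) (-ψ)
  have g2 : (φ + (α + α' - φ)) / 2 = (α + α') / 2 := by ring
  have g3 : (α + α' + ψ + (-ψ)) / 2 = (α + α') / 2 := by ring
  rw [g2] at f2
  rw [g3] at f3
  have k1 : ex (-ψ) * ex (α + α' - φ + ψ) = ex (α + α' - φ) := by
    rw [← ex_add]; congr 1; ring
  have k2 : ex φ * ex (α + α' - φ + ψ) = ex (α + α' + ψ) := by
    rw [← ex_add]; congr 1; ring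
  have k3 : ex φ * ex (α + α' - φ) = ex α * ex α' := by
    rw [← ex_add, ← ex_add]; congr 1; ring
  refine PM.two (u _) (u _) (by simp) (u _) ?_ t0 t1 ?_
  · linear_combination (-1) * k3 - ex φ * k1
  · rw [ht] at f1
    push_cast at f1 f2 f3
    linear_combination f1 - (t : ℂ) * f2 - (1 - (t : ℂ)) * f3 - (t : ℂ) * k1 - (1 - (t : ℂ)) * k2

theorem SR.add {X N : Multiset ℂ} (h : SR X) (hN : ∀ u ∈ N, star u * u = 1) :
    SR (X + (N + N.map star)) := by
  obtain ⟨N', ε, rfl, h1, h2⟩ := h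
  refine ⟨N' + N, ε, ?_, ?_, h2⟩
  · rw [Multiset.map_add]; abel
  · intro u hu
    rcases Multiset.mem_add.1 hu with hu | hu
    · exact h1 u hu
    · exact hN u hu

theorem SR.pair {X : Multiset ℂ} (h : SR X) {c : ℂ} (hc : star c * c = 1) :
    SR (X + {c} + {star c}) := by
  have := h.add (N := {c}) (by intro u hu; rw [Multiset.mem_singleton] at hu; rw [hu]; exact hc)
  rw [Multiset.map_singleton, ← add_assoc] at this
  exact this

theorem SR.base {ε : ℂ} (h : ε = 1 ∨ ε = -1) : SR ({ε} + {ε}) :=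
  ⟨0, ε, by rw [pair_eq]; simp, by simp, h⟩

/-- The second case. -/
theorem case_two {α α' β β' : ℝ} {l₁ l₂ : List ℝ} {r : ℕ} {j : ℤ} (h1 : α ≤ α') (h2 : β ≤ β')
    (a0 : 0 ≤ α) (a1 : α' ≤ Real.pi) (b0 : 0 ≤ β) (b1 : β' ≤ Real.pi)
    (hl₁ : l₁.length = 2 * r + 1) (hl₂ : l₂.length = 2 * r + 1)
    (hs : α + α' + β + β' + l₁.sum + l₂.sum = 2 * ((2 * j + 1) * Real.pi))
    (hd : |l₁.sum - l₂.sum| ≤ (α' - α) + (β' - β)) :
    ∃ X Y, SR X ∧ SR Y ∧ PM X Y ({ex α, ex α'} + {ex β, ex β'} +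
      ((l₁.map ex : List ℂ) : Multiset ℂ) + ((l₂.map ex : List ℂ) : Multiset ℂ)) := by
  obtain ⟨d1, d2⟩ := abs_le.1 hd
  set K : ℝ := (2 * j + 1) * Real.pi with hK
  set S₁ : ℝ := l₁.sum with hS₁
  set S₂ : ℝ := l₂.sum with hS₂
  obtain ⟨φ, ψ, f1, f2, f3, f4, f5⟩ : ∃ φ ψ : ℝ, α ≤ φ ∧ φ ≤ α' ∧ β ≤ ψ ∧ ψ ≤ β' ∧
      φ - ψ = α + α' + S₂ - K := by
    refine ⟨max α (α + α' + S₂ - K + β), max α (α + α' + S₂ - K + β) - (α + α' + S₂ - K),
      le_max_left _ _, max_le h1 (by linarith), ?_, ?_, by ring⟩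
    · have := le_max_right α (α + α' + S₂ - K + β)
      linarith
    · have : max α (α + α' + S₂ - K + β) ≤ α + α' + S₂ - K + β' :=
        max_le (by linarith) (by linarith)
      linarith
  have hprod : ∀ l : List ℝ, (l.map ex).prod = ex l.sum := by
    intro l
    induction l with
    | nil => simp [ex_zero]
    | cons a l ih => rw [List.map_cons, List.prod_cons, ih, List.sum_cons, ex_add]
  have hpi := ex_pi j
  rw [← hK] at hpi
  have p1 := block f1 f2 a0 a1 (b0.trans f3) (f4.trans b1)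
  have p2 := block f3 f4 b0 b1 (a0.trans f1) (f2.trans a1)
  have e1 : -ex (α + α' - φ + ψ) = ex (-S₂) := by
    have : α + α' - φ + ψ = K + (-S₂) := by linarith
    rw [this, ex_add, hpi]; ring
  have e2 : -ex (β + β' - ψ + φ) = ex (-S₁) := by
    have : β + β' - ψ + φ = K + (-S₁) := by linarith
    rw [this, ex_add, hpi]; ring
  rw [e1] at p1
  rw [e2] at p2
  have hu : ∀ l : List ℝ, ∀ u ∈ l.map ex, star u * u = 1 := by
    intro l u hu
    obtain ⟨x, -, rfl⟩ := List.mem_map.1 hu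
    exact ex_unit x
  obtain ⟨N₁, M₁, n1, m1, p3⟩ := path r (l₁.map ex) (ex (-S₁)) (by rw [List.length_map, hl₁])
    (hu l₁) (ex_unit _)
  obtain ⟨N₂, M₂, n2, m2, p4⟩ := path r (l₂.map ex) (ex (-S₂)) (by rw [List.length_map, hl₂])
    (hu l₂) (ex_unit _)
  have g1 : ex (-S₁) * (l₁.map ex).prod = 1 := by
    rw [hprod, ← ex_add, ← hS₁, neg_add_cancel, ex_zero]
  have g2 : ex (-S₂) * (l₂.map ex).prod = 1 := by
    rw [hprod, ← ex_add, ← hS₂, neg_add_cancel, ex_zero]
  rw [g1] at p3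
  rw [g2] at p4
  have un : ∀ x, star (-ex x) * (-ex x) = 1 := fun x => by
    rw [star_neg, neg_mul_neg]; exact ex_unit x
  refine ⟨_, _, ?_, ?_, ((p1.add p2).add p3).add p4⟩
  · have := ((((SR.base (ε := 1) (Or.inl rfl)).pair (un φ)).pair (un ψ)).add n1).add n2
    have e : {-ex φ, -ex (-ψ)} + {-ex ψ, -ex (-φ)} + (N₁ + N₁.map star + {1}) +
        (N₂ + N₂.map star + {1}) = {1} + {1} + {-ex φ} + {star (-ex φ)} + {-ex ψ} +
        {star (-ex ψ)} + (N₁ + N₁.map star) + (N₂ + N₂.map star) := by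
      rw [star_neg, star_neg, star_ex, star_ex, pair_eq, pair_eq]
      abel
    rw [e]
    exact this
  · have := ((((SR.base (ε := -1) (Or.inr rfl)).pair (ex_unit (-S₁))).pair
      (ex_unit (-S₂))).add m1).add m2
    have e : {-1, ex (-S₂)} + {-1, ex (-S₁)} + (M₁ + M₁.map star + {star (ex (-S₁))}) +
        (M₂ + M₂.map star + {star (ex (-S₂))}) = {-1} + {-1} + {ex (-S₁)} + {star (ex (-S₁))} +
        {ex (-S₂)} + {star (ex (-S₂))} + (M₁ + M₁.map star) + (M₂ + M₂.map star) := by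
      rw [pair_eq, pair_eq]
      abel
    rw [e]
    exact this

end Pool.Agent.L0h60.SU4
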