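import Pool.Agent.L0h60.SU4.Cases

/-! Every element of the special unitary group of degree at least three is a product of four
involutions. -/

namespace Pool.Agent.L0h60.SU4

open Matrix Pool.Agent.H16.SUn

variable {n : ℕ}

/-- Being a product of four involutions of the special unitary group. -/
def Four (A : Matrix (Fin n) (Fin n) ℂ) : Prop := ∃ I1 I2 I3 I4,
  IsInv n I1 ∧ IsInv n I2 ∧ IsInv n I3 ∧ IsInv n I4 ∧ A = I1 * I2 * I3 * I4

theorem Four.conj {A P : Matrix (Fin n) (Fin n) ℂ} (h : Four A) (hP : Uni P) :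
    Four (P * A * Pᴴ) := by
  obtain ⟨I1, I2, I3, I4, h1, h2, h3, h4, rfl⟩ := h
  refine ⟨_, _, _, _, isInv_conj hP.1 hP.2 h1, isInv_conj hP.1 hP.2 h2, isInv_conj hP.1 hP.2 h3,
    isInv_conj hP.1 hP.2 h4, ?_⟩
  calc P * (I1 * I2 * I3 * I4) * Pᴴ = P * I1 * (1 * I2) * (1 * I3) * (1 * I4) * Pᴴ := by
        simp only [Matrix.mul_assoc, Matrix.one_mul]
    _ = P * I1 * (Pᴴ * P * I2) * (Pᴴ * P * I3) * (Pᴴ * P * I4) * Pᴴ := by rw [hP.1]
    _ = _ := by simp only [Matrix.mul_assoc]

theorem inv_star {I : Matrix (Fin n) (Fin n) ℂ} (h : IsInv n I) : Iᴴ = I := by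
  obtain ⟨h1, h2⟩ := h
  rw [Matrix.mem_specialUnitaryGroup_iff, Matrix.mem_unitaryGroup_iff,
    Matrix.star_eq_conjTranspose] at h1
  calc Iᴴ = (I * I) * Iᴴ := by rw [h2, Matrix.one_mul]
    _ = I * (I * Iᴴ) := by rw [Matrix.mul_assoc]
    _ = I := by rw [h1.1, Matrix.mul_one]

theorem Four.star {A : Matrix (Fin n) (Fin n) ℂ} (h : Four A) : Four Aᴴ := by
  obtain ⟨I1, I2, I3, I4, h1, h2, h3, h4, rfl⟩ := h
  refine ⟨I4, I3, I2, I1, h4, h3, h2, h1, ?_⟩
  rw [conjTranspose_mul, conjTranspose_mul, conjTranspose_mul, inv_star h1, inv_star h2,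
    inv_star h3, inv_star h4]
  simp only [Matrix.mul_assoc]

theorem Four.neg {A : Matrix (Fin n) (Fin n) ℂ} (h : Four A) (hn : Even n) : Four (-A) := by
  obtain ⟨I1, I2, I3, I4, h1, h2, h3, h4, rfl⟩ := h
  refine ⟨-I1, I2, I3, I4, ?_, h2, h3, h4, ?_⟩
  · obtain ⟨h5, h6⟩ := h1
    rw [Matrix.mem_specialUnitaryGroup_iff, Matrix.mem_unitaryGroup_iff] at h5
    refine ⟨?_, by rw [neg_mul_neg, h6]⟩
    rw [Matrix.mem_specialUnitaryGroup_iff, Matrix.mem_unitaryGroup_iff]
    refine ⟨by rw [star_neg, neg_mul_neg, h5.1], ?_⟩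
    rw [Matrix.det_neg, h5.2, Fintype.card_fin, hn.neg_one_pow, one_mul]
  · simp only [Matrix.neg_mul]

theorem four_of_PM {z : Fin n → ℂ} {X Y : Multiset ℂ} (hX : SR X) (hY : SR Y)
    (h : PM X Y (spec z)) : Four (Matrix.diagonal z) := by
  obtain ⟨k, x, y, z', hx, hy, hz, h⟩ := h
  obtain ⟨e, he⟩ := exists_equiv hz.symm
  have h' := h.reindex e
  rw [← he] at h'
  have tX : Two (Matrix.diagonal (x ∘ e)) := by
    obtain ⟨N, ε, h1, h2, h3⟩ := hX
    exact two_of_spec (by rw [spec_comp, hx, h1]) h2 h3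
  have tY : Two (Matrix.diagonal (y ∘ e)) := by
    obtain ⟨N, ε, h1, h2, h3⟩ := hY
    exact two_of_spec (by rw [spec_comp, hy, h1]) h2 h3
  obtain ⟨I1, I2, i1, i2, e1⟩ := tX
  obtain ⟨I3, I4, i3, i4, e2⟩ := tY
  obtain ⟨P, Q, hP, hQ, e3⟩ := h'
  refine ⟨_, _, _, _, isInv_conj hP.1 hP.2 i1, isInv_conj hP.1 hP.2 i2, isInv_conj hQ.1 hQ.2 i3,
    isInv_conj hQ.1 hQ.2 i4, ?_⟩
  rw [e3, e1, e2]
  calc P * (I1 * I2) * Pᴴ * (Q * (I3 * I4) * Qᴴ)
      = P * I1 * (1 * I2) * Pᴴ * Q * I3 * (1 * I4) * Qᴴ := by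
        simp only [Matrix.mul_assoc, Matrix.one_mul]
    _ = P * I1 * (Pᴴ * P * I2) * Pᴴ * Q * I3 * (Qᴴ * Q * I4) * Qᴴ := by rw [hP.1, hQ.1]
    _ = _ := by simp only [Matrix.mul_assoc]

/-! ### The angles in the upper half plane -/

theorem range_decomp {α : Type} (f : ℕ → α) (q : ℕ) :
    (Multiset.range (2 * q + 4)).map f = {f 0, f (2 * q + 3)} + {f 1, f (2 * q + 2)} +
      (((List.range q).map fun j => f (2 * j + 2) : List α) : Multiset α) +
      (((List.range q).map fun j => f (2 * j + 3) : List α) : Multiset α) := by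
  have pe : ∀ a b : α, ({a, b} : Multiset α) = {a} + {b} := fun a b => by
    rw [Multiset.singleton_add]; rfl
  induction q with
  | zero =>
    have h : Multiset.range (2 * 0 + 4) = {0} + {1} + {2} + {3} := rfl
    rw [h, pe, pe]
    simp only [Multiset.map_add, Multiset.map_singleton, List.range_zero, List.map_nil,
      Multiset.coe_nil, add_zero, mul_zero, zero_add]
    abel
  | succ q ih =>
    have h1 : 2 * (q + 1) + 4 = (2 * q + 4 + 1) + 1 := by ring
    rw [h1, Multiset.range_succ, Multiset.range_succ, Multiset.map_cons, Multiset.map_cons, ih,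
      List.range_succ, List.map_append, List.map_append, ← Multiset.coe_add, ← Multiset.coe_add,
      List.map_singleton, List.map_singleton, Multiset.coe_singleton, Multiset.coe_singleton,
      pe, pe, pe, pe, ← Multiset.singleton_add, ← Multiset.singleton_add]
    have h2 : 2 * (q + 1) + 3 = 2 * q + 4 + 1 := by ring
    have h3 : 2 * (q + 1) + 2 = 2 * q + 4 := by ring
    rw [h2, h3]
    abel

theorem alt_sum (t : ℕ → ℝ) (ht : Monotone t) (q : ℕ) :
    0 ≤ ((List.range q).map fun j => t (2 * j + 3)).sum -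
      ((List.range q).map fun j => t (2 * j + 2)).sum ∧
    ((List.range q).map fun j => t (2 * j + 3)).sum -
      ((List.range q).map fun j => t (2 * j + 2)).sum ≤ t (2 * q + 2) - t 2 := by
  induction q with
  | zero => simp
  | succ q ih =>
    rw [List.range_succ, List.map_append, List.map_append, List.sum_append, List.sum_append,
      List.map_singleton, List.map_singleton, List.sum_singleton, List.sum_singleton]
    have h1 : t (2 * q + 2) ≤ t (2 * q + 3) := ht (by omega)
    have h2 : t (2 * q + 3) ≤ t (2 * (q + 1) + 2) := ht (by omega)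
    constructor <;> linarith [ih.1, ih.2]

theorem four_angles {r : ℕ} (θ : Fin (4 * r + 6) → ℝ) (h0 : ∀ i, 0 ≤ θ i)
    (h1 : ∀ i, θ i ≤ Real.pi) {j : ℤ} (hs : ∑ i, θ i = 2 * ((2 * j + 1) * Real.pi)) :
    Four (Matrix.diagonal fun i => ex (θ i)) := by
  let σ := Tuple.sort θ
  have hσ : Monotone (θ ∘ σ) := Tuple.monotone_sort θ
  let t : ℕ → ℝ := fun k => θ (σ ⟨min k (4 * r + 5), by omega⟩)
  have ht : Monotone t := fun a b hab => hσ (by
    rw [Fin.mk_le_mk]
    exact min_le_min_right _ hab)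
  have hmap : ∀ {α : Type} (f : ℝ → α),
      Finset.univ.val.map (fun i => f (θ i)) = (Multiset.range (4 * r + 6)).map fun k => f (t k) := by
    intro α f
    have e1 : Finset.univ.val.map (fun i => f (θ i)) =
        Finset.univ.val.map (fun i => f (θ (σ i))) := by
      have := congrArg (fun s : Finset (Fin (4 * r + 6)) => s.val.map (fun i => f (θ i)))
        (Finset.map_univ_equiv σ)
      simp only [Finset.map_val, Multiset.map_map] at this
      exact this.symm
    have e2 : (Multiset.range (4 * r + 6)) =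
        Finset.univ.val.map (fun i : Fin (4 * r + 6) => (i : ℕ)) := by
      rw [Fin.univ_val_map, List.ofFn_eq_map, List.map_coe_finRange_eq_range]
      rfl
    rw [e1, e2, Multiset.map_map]
    refine Multiset.map_congr rfl fun i _ => ?_
    simp only [Function.comp_apply, t]
    congr 3
    apply Fin.ext
    change (i : ℕ) = min (i : ℕ) (4 * r + 5)
    omega
  have hq : 4 * r + 6 = 2 * (2 * r + 1) + 4 := by ring
  have hspec : spec (fun i => ex (θ i)) = _ := (hmap ex).trans (by rw [hq, range_decomp])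
  have hsum : ∑ i, θ i = t 0 + t (2 * (2 * r + 1) + 3) + t 1 + t (2 * (2 * r + 1) + 2) +
      ((List.range (2 * r + 1)).map fun j => t (2 * j + 2)).sum +
      ((List.range (2 * r + 1)).map fun j => t (2 * j + 3)).sum := by
    have := congrArg Multiset.sum ((hmap id).trans (by rw [hq, range_decomp]))
    simp only [id, Multiset.sum_add, Multiset.insert_eq_cons, Multiset.sum_cons,
      Multiset.sum_singleton, Multiset.sum_coe] at this
    rw [Finset.sum_eq_multiset_sum, this]
    ring
  obtain ⟨d1, d2⟩ := alt_sum t ht (2 * r + 1)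
  have t0 : ∀ k, 0 ≤ t k := fun k => h0 _
  have t1 : ∀ k, t k ≤ Real.pi := fun k => h1 _
  have m1 : t 0 ≤ t (2 * (2 * r + 1) + 3) := ht (by omega)
  have m2 : t 1 ≤ t (2 * (2 * r + 1) + 2) := ht (by omega)
  have m3 : t 1 ≤ t 2 := ht (by omega)
  obtain ⟨X, Y, hX, hY, h⟩ := case_two (r := r) (j := j)
    (l₁ := (List.range (2 * r + 1)).map fun j => t (2 * j + 2))
    (l₂ := (List.range (2 * r + 1)).map fun j => t (2 * j + 3))
    m1 m2 (t0 _) (t1 _) (t0 _) (t1 _) (by simp) (by simp) (by rw [← hs, hsum])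
    (by
      rw [abs_le]
      constructor <;> linarith)
  refine four_of_PM hX hY ?_
  rw [hspec]
  simpa only [List.map_map, Function.comp_def] using h

theorem ex_arg {z : ℂ} (hz : star z * z = 1) : ex z.arg = z := by
  unfold ex
  have h1 : ‖z‖ = 1 := by
    have h2 := Complex.conj_mul' z
    have h3 : ((‖z‖ ^ 2 : ℝ) : ℂ) = 1 := by
      push_cast
      rw [← h2]
      exact hz
    have h4 : ‖z‖ ^ 2 = 1 := by exact_mod_cast h3
    have h5 : 0 ≤ ‖z‖ := norm_nonneg z
    nlinarith
  have := Complex.norm_mul_exp_arg_mul_I z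
  rwa [h1, Complex.ofReal_one, one_mul] at this

theorem four_upper {r : ℕ} (z : Fin (4 * r + 6) → ℂ) (hz : ∀ i, star (z i) * z i = 1)
    (hp : ∏ i, z i = 1) (him : ∀ i, 0 < (z i).im) : Four (Matrix.diagonal z) := by
  have hθ : (fun i => ex (z i).arg) = z := funext fun i => ex_arg (hz i)
  have h0 : ∀ i, 0 ≤ (z i).arg := fun i => Complex.arg_nonneg_iff.2 (him i).le
  have h1 : ∀ i, (z i).arg ≤ Real.pi := fun i => Complex.arg_le_pi _
  have hprod : ∀ s : Finset (Fin (4 * r + 6)), ∏ i ∈ s, z i = ex (∑ i ∈ s, (z i).arg) := by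
    intro s
    induction s using Finset.induction_on with
    | empty => simp [ex_zero]
    | insert a s ha ih => rw [Finset.prod_insert ha, Finset.sum_insert ha, ex_add, ih, ex_arg (hz a)]
  have h2 : ex (∑ i, (z i).arg) = 1 := by rw [← hprod, hp]
  unfold ex at h2
  rw [Complex.exp_eq_one_iff] at h2
  obtain ⟨k, hk⟩ := h2
  have hk' : ∑ i, (z i).arg = k * (2 * Real.pi) := by
    have h3 : ((∑ i, (z i).arg : ℝ) : ℂ) = ((k * (2 * Real.pi) : ℝ) : ℂ) := by
      have : (((∑ i, (z i).arg : ℝ) : ℂ) - ((k * (2 * Real.pi) : ℝ) : ℂ)) * Complex.I = 0 := by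
        rw [sub_mul, hk]
        push_cast
        ring
      rcases mul_eq_zero.1 this with h | h
      · linear_combination h
      · exact absurd h Complex.I_ne_zero
    exact_mod_cast h3
  rcases Int.even_or_odd' k with ⟨j, hj | hj⟩
  · -- even: use the negative of the inverse
    have h4 : Four (Matrix.diagonal fun i => ex (Real.pi - (z i).arg)) := by
      refine four_angles (r := r) (j := r + 1 - j) (fun i => Real.pi - (z i).arg)
        (fun i => by linarith [h1 i]) (fun i => by linarith [h0 i]) ?_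
      rw [Finset.sum_sub_distrib, hk', hj, Finset.sum_const, Finset.card_univ, Fintype.card_fin]
      simp only [nsmul_eq_mul]
      push_cast
      ring
    have h5 := (h4.star).neg (by exact ⟨2 * r + 3, by ring⟩)
    have h6 : -(Matrix.diagonal fun i => ex (Real.pi - (z i).arg))ᴴ = Matrix.diagonal z := by
      rw [Matrix.diagonal_conjTranspose, Matrix.diagonal_neg]
      congr 1
      funext i
      change -star (ex (Real.pi - (z i).arg)) = z i
      rw [star_ex]
      have : -(Real.pi - (z i).arg) = (z i).arg + -Real.pi := by ring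
      rw [this, ex_add, ex_arg (hz i)]
      have h7 : ex (-Real.pi) = -1 := by
        have := ex_pi (-1)
        have e : ((2 * ((-1 : ℤ) : ℝ) + 1) * Real.pi) = -Real.pi := by push_cast; ring
        rwa [e] at this
      rw [h7]
      ring
    rwa [h6] at h5
  · have h4 := four_angles (r := r) (j := j) (fun i => (z i).arg) h0 h1 (by
      rw [hk', hj]
      push_cast
      ring)
    rwa [hθ] at h4

/-! ### The assembly -/

theorem four_six {r : ℕ} (z : Fin (4 * r + 6) → ℂ) (hz : ∀ i, star (z i) * z i = 1)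
    (hp : ∏ i, z i = 1) : Four (Matrix.diagonal z) := by
  by_cases hup : ∀ i, 0 < (z i).im
  · exact four_upper z hz hp hup
  by_cases hdn : ∀ i, (z i).im < 0
  · have h := four_upper (fun i => star (z i)) (fun i => by rw [star_star, mul_comm]; exact hz i)
      (by rw [← star_prod, hp, star_one]) (fun i => by
        have := hdn i
        change 0 < (starRingEnd ℂ (z i)).im
        rw [Complex.conj_im]
        linarith)
    have h2 := h.star
    rw [Matrix.diagonal_conjTranspose] at h2
    have h3 : star (fun i => star (z i)) = z := by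
      funext i
      simp
    rwa [h3] at h2
  -- two eigenvalues on different sides
  obtain ⟨i, j, hij, him⟩ : ∃ i j, i ≠ j ∧ (z i).im * (z j).im ≤ 0 := by
    by_contra hcon
    push Not at hcon
    push Not at hup hdn
    obtain ⟨a, ha⟩ := hup
    obtain ⟨b, hb⟩ := hdn
    by_cases hab : a = b
    · subst hab
      have h0 : (z a).im = 0 := le_antisymm ha hb
      obtain ⟨c, hc⟩ : ∃ c, a ≠ c := by
        obtain ⟨c, hc⟩ := exists_ne a
        exact ⟨c, hc.symm⟩
      have := hcon a c hc
      rw [h0, zero_mul] at this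
      exact lt_irrefl _ this
    · have := hcon a b hab
      nlinarith
  obtain ⟨k, hk⟩ : ∃ k, k ∉ ({i, j} : Finset (Fin (4 * r + 6))) := by
    by_contra hcon
    push Not at hcon
    have h1 : (Finset.univ : Finset (Fin (4 * r + 6))) ⊆ {i, j} := fun k _ => hcon k
    have h2 := Finset.card_le_card h1
    rw [Finset.card_univ, Fintype.card_fin] at h2
    have h3 := Finset.card_le_two (a := i) (b := j)
    omega
  rw [Finset.mem_insert, Finset.mem_singleton, not_or] at hk
  obtain ⟨hki, hkj⟩ := hk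
  have hval : ({k, i, j} : Finset (Fin (4 * r + 6))).val = {k, i, j} := by
    rw [Finset.insert_val_of_notMem (by simp [hki, hkj]),
      Finset.insert_val_of_notMem (by simp [hij])]
    rfl
  have huniv : (Finset.univ : Finset (Fin (4 * r + 6))).val =
      {k, i, j} + (Finset.univ \ {k, i, j} : Finset (Fin (4 * r + 6))).val := by
    rw [← hval, Finset.sdiff_val]
    exact (add_tsub_cancel_of_le (Finset.val_le_iff.2 (Finset.subset_univ _))).symm
  set T : Finset (Fin (4 * r + 6)) := Finset.univ \ {k, i, j} with hT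
  have hspec : spec z = {z k, z i, z j} + ((T.toList.map z : List ℂ) : Multiset ℂ) := by
    unfold spec
    rw [huniv, Multiset.map_add, ← Multiset.map_coe, Finset.coe_toList]
    rfl
  have hcard : T.card = 2 * (2 * r + 1) + 1 := by
    rw [hT, Finset.card_sdiff_of_subset (Finset.subset_univ _), Finset.card_univ, Fintype.card_fin]
    have : ({k, i, j} : Finset (Fin (4 * r + 6))).card = 3 := by
      rw [Finset.card_eq_three]
      exact ⟨k, i, j, hki, hkj, hij, rfl⟩
    omega
  have hprod : z k * z i * z j * (T.toList.map z).prod = 1 := by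
    have h1 : (spec z).prod = 1 := hp
    rw [hspec, Multiset.prod_add, Multiset.prod_coe] at h1
    simp only [Multiset.insert_eq_cons, Multiset.prod_cons, Multiset.prod_singleton] at h1
    rw [← h1]
    ring
  obtain ⟨X, Y, hX, hY, h⟩ := case_one (r := 2 * r + 1) (hz k) (hz i) (hz j)
    (l := T.toList.map z) (by
      intro u hu
      obtain ⟨x, -, rfl⟩ := List.mem_map.1 hu
      exact hz x) (by rw [List.length_map, Finset.length_toList, hcard]) hprod him
  refine four_of_PM hX hY ?_
  rw [hspec]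
  exact h

theorem sign_sX (m : ℕ) : Equiv.Perm.sign (sX (m * 2)) = (-1) ^ m := by
  have h : sX (m * 2) = (finProdFinEquiv (m := m) (n := 2)).permCongr
      (Equiv.prodCongrRight fun _ => Equiv.swap 0 1) := by
    ext i
    obtain ⟨⟨a, b⟩, rfl⟩ := (finProdFinEquiv (m := m) (n := 2)).surjective i
    rw [Equiv.permCongr_apply, Equiv.symm_apply_apply, sX_apply]
    have ha := a.2
    fin_cases b
    · have h1 : 2 * (a : ℕ) + 1 < m * 2 := by omega
      simp [tX, finProdFinEquiv, Equiv.prodCongrRight, h1]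
      omega
    · simp [tX, finProdFinEquiv, Equiv.prodCongrRight]
  rw [h, Equiv.Perm.sign_permCongr, Equiv.Perm.sign_prodCongrRight]
  simp

theorem four {A : Matrix (Fin n) (Fin n) ℂ} (hn : 3 ≤ n)
    (hA : A ∈ Matrix.specialUnitaryGroup (Fin n) ℂ) : Four A := by
  obtain ⟨P, z, e1, e2, e3, e4, e5⟩ := reduce hA
  rw [e3]
  refine Four.conj ?_ ⟨e1, e2⟩
  have hlib : (Equiv.Perm.sign (sX n) = 1 ∨ n % 2 = 1) →
      Four (Matrix.diagonal (xx z) * Matrix.diagonal (yy z)) := by
    intro h
    obtain ⟨J1, J2, j1, j2, hY⟩ := yy_two z (by omega) e4 e5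
    obtain ⟨K1, K2, k1, k2, hX⟩ := xx_two z (by omega) e4 e5 h
    exact ⟨K1, K2, J1, J2, k1, k2, j1, j2, by rw [hX, hY]; simp only [Matrix.mul_assoc]⟩
  rcases (by omega : n % 2 = 1 ∨ n % 4 = 0 ∨ n % 4 = 2) with h | h | h
  · exact hlib (Or.inr h)
  · apply hlib
    left
    obtain ⟨m, rfl⟩ : ∃ m, n = (2 * m) * 2 := ⟨n / 4, by omega⟩
    rw [sign_sX, pow_mul]
    simp
  · obtain ⟨r, rfl⟩ : ∃ r, n = 4 * r + 6 := ⟨(n - 6) / 4, by omega⟩
    rw [Matrix.diagonal_mul_diagonal]
    have : (fun i => xx z i * yy z i) = z := funext (fun i => xx_mul_yy z e4 i)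
    rw [this]
    exact four_six z e4 e5

end Pool.Agent.L0h60.SU4
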