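import Pool.Agent.L0h60.SU4.Basic

/-! The two-dimensional case, the paths and the pairings. -/

namespace Pool.Agent.L0h60.SU4

open Matrix Pool.Agent.H16.SUn

variable {ι κ : Type} [Fintype ι] [DecidableEq ι] [Fintype κ] [DecidableEq κ]

theorem exists_spec (N : Multiset ℂ) : ∃ (r : ℕ) (y : Fin r → ℂ), spec y = N := by
  induction N using Quotient.inductionOn with
  | _ l =>
    refine ⟨l.length, l.get, ?_⟩
    unfold spec
    rw [Fin.univ_val_map, List.ofFn_get]
    rfl

/-- A self-reciprocal spectrum with a twofold real eigenvalue gives two involutions. -/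
theorem two_of_spec {x : ι → ℂ} {N : Multiset ℂ} {ε : ℂ}
    (h : spec x = N + N.map star + {ε, ε}) (hN : ∀ u ∈ N, star u * u = 1)
    (hε : ε = 1 ∨ ε = -1) : Two (Matrix.diagonal x) := by
  obtain ⟨r, y, rfl⟩ := exists_spec N
  have hy : ∀ i, star (y i) * y i = 1 := fun i => hN _ (by
    unfold spec
    exact Multiset.mem_map_of_mem _ (Finset.mem_univ_val i))
  have hεs : star ε = ε := by
    rcases hε with rfl | rfl <;> simp
  have hε2 : ε * ε = 1 := by
    rcases hε with rfl | rfl <;> simp
  let x' : (Fin r ⊕ Fin r) ⊕ Fin 2 → ℂ := Sum.elim (Sum.elim y (star ∘ y)) (fun _ => ε)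
  have hspec : spec x = spec x' := by
    rw [h, spec_elim, spec_elim]
    congr 1
    congr 1
    unfold spec
    rw [Multiset.map_map]
  obtain ⟨e, he⟩ := exists_equiv hspec
  have key : Two (Matrix.diagonal x') := by
    refine two_of_pairing (Equiv.sumCongr (Equiv.sumComm _ _) (Equiv.refl _)) x' ?_ ?_ ?_ ?_ ?_
    · rintro ((i | i) | i) <;> simp
    · rintro ((i | i) | i)
      · simpa [x'] using hy i
      · simpa [x', mul_comm] using hy i
      · simpa [x', hεs] using hε2
    · rintro ((i | i) | i)
      · simp [x']
      · simp [x']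
      · simpa [x'] using hεs.symm
    · rw [Fintype.prod_sum_type, Fintype.prod_sum_type]
      simp only [x', Sum.elim_inl, Sum.elim_inr, Fin.prod_univ_two, hε2, mul_one,
        Function.comp_apply]
      rw [← Finset.prod_mul_distrib]
      refine Finset.prod_eq_one fun i _ => ?_
      rw [mul_comm]
      exact hy i
    · exact ⟨Sum.inr 0, by simp⟩
  rw [he, ← submatrix_diagonal_equiv]
  exact two_submatrix e key

theorem spec_two (z : Fin 2 → ℂ) : spec z = {z 0, z 1} := by
  unfold spec
  rw [Fin.univ_val_map]
  simp [List.ofFn_succ]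
  rfl

/-- The two-dimensional case. -/
theorem PM.two {p q r s u v : ℂ} (hp : star p * p = 1) (hq : star q * q = 1)
    (hr : star r * r = 1) (hs : star s * s = 1) (hD : u * v = p * q * r * s) {t : ℝ}
    (h0 : 0 ≤ t) (h1 : t ≤ 1)
    (hS : u + v = t * (p * r + q * s) + (1 - t) * (p * s + q * r)) :
    PM {p, q} {r, s} {u, v} := by
  let c : ℂ := ((Real.sqrt t : ℝ) : ℂ)
  let d : ℂ := ((Real.sqrt (1 - t) : ℝ) : ℂ)
  have hc : c * c = t := by
    simp only [c]
    rw [← Complex.ofReal_mul, Real.mul_self_sqrt h0]
  have hd : d * d = 1 - t := by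
    simp only [d]
    rw [← Complex.ofReal_mul, Real.mul_self_sqrt (by linarith)]
    push_cast
    rfl
  have hcs : star c = c := by simp [c]
  have hds : star d = d := by simp [d]
  have hcd : c * c + d * d = 1 := by rw [hc, hd]; ring
  let R : Matrix (Fin 2) (Fin 2) ℂ := !![c, -d; d, c]
  have hRH : Rᴴ = !![c, d; -d, c] := by
    ext i j
    fin_cases i <;> fin_cases j <;> simp [R, hcs, hds]
  have hR : Uni R := by
    refine ⟨?_, ?_⟩
    · rw [hRH]
      ext i j
      fin_cases i <;> fin_cases j <;> simp [R, Matrix.mul_apply, Fin.sum_univ_two] <;>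
        first | linear_combination hcd | ring
    · rw [hRH]
      ext i j
      fin_cases i <;> fin_cases j <;> simp [R, Matrix.mul_apply, Fin.sum_univ_two] <;>
        first | linear_combination hcd | ring
  have hdiag : ∀ {a b : ℂ}, star a * a = 1 → star b * b = 1 →
      Uni (Matrix.diagonal ![a, b]) := by
    intro a b ha hb
    have ha' : a * star a = 1 := by rw [mul_comm]; exact ha
    have hb' : b * star b = 1 := by rw [mul_comm]; exact hb
    refine ⟨?_, ?_⟩
    · rw [diagonal_conjTranspose, diagonal_mul_diagonal, ← diagonal_one]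
      congr 1
      funext i
      fin_cases i
      · simpa using ha
      · simpa using hb
    · rw [diagonal_conjTranspose, diagonal_mul_diagonal, ← diagonal_one]
      congr 1
      funext i
      fin_cases i
      · simpa using ha'
      · simpa using hb'
  let M : Matrix (Fin 2) (Fin 2) ℂ :=
    R * Matrix.diagonal ![p, q] * Rᴴ * Matrix.diagonal ![r, s]
  have hM : Uni M := ((hR.mul (hdiag hp hq)).mul hR.conj).mul (hdiag hr hs)
  have htr : M.trace = u + v := by
    rw [hS]
    simp only [M, hRH, R, Matrix.trace_fin_two, Matrix.mul_apply, Fin.sum_univ_two,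
      Matrix.diagonal_apply]
    simp
    linear_combination (p * r + q * s) * hc + (p * s + q * r) * hd
  have hdet : M.det = u * v := by
    have e1 : R.det = 1 := by
      simp only [R, Matrix.det_fin_two_of]
      linear_combination hcd
    have e2 : (Rᴴ).det = 1 := by
      rw [det_conjTranspose, e1, star_one]
    simp only [M, det_mul, e1, e2, det_diagonal, Fin.prod_univ_two]
    simp
    linear_combination -hD
  obtain ⟨Q, z, q1, q2, q3, q4⟩ := diagonalise hM.1
  have hQ : Uni Q := ⟨q1, q2⟩
  have hz1 : z 0 + z 1 = u + v := by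
    rw [← htr, q3, Matrix.trace_mul_comm, ← Matrix.mul_assoc, q1, Matrix.one_mul,
      Matrix.trace_fin_two]
    simp
  have hz2 : z 0 * z 1 = u * v := by
    rw [← hdet, q3, det_mul, det_mul, det_diagonal, Fin.prod_univ_two]
    have : Q.det * (Qᴴ).det = 1 := by rw [← det_mul, q2, det_one]
    linear_combination (-(z 0 * z 1)) * this
  have hPC : PC ![p, q] ![r, s] z := by
    refine ⟨Qᴴ * R, Qᴴ, hQ.conj.mul hR, hQ.conj, ?_⟩
    have e1 : Matrix.diagonal z = Qᴴ * M * Q := by
      rw [q3]
      calc Matrix.diagonal z = (Qᴴ * Q) * Matrix.diagonal z * (Qᴴ * Q) := by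
            rw [q1, Matrix.one_mul, Matrix.mul_one]
        _ = _ := by simp only [Matrix.mul_assoc]
    rw [e1, conjTranspose_mul, conjTranspose_conjTranspose]
    calc Qᴴ * M * Q = Qᴴ * (R * Matrix.diagonal ![p, q] * Rᴴ * Matrix.diagonal ![r, s]) * Q := rfl
      _ = Qᴴ * R * Matrix.diagonal ![p, q] * Rᴴ * 1 * Matrix.diagonal ![r, s] * Q := by
          simp only [Matrix.mul_assoc, Matrix.one_mul]
      _ = Qᴴ * R * Matrix.diagonal ![p, q] * Rᴴ * (Q * Qᴴ) * Matrix.diagonal ![r, s] * Q := by
          rw [q2]
      _ = _ := by simp only [Matrix.mul_assoc]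
  have h2 := PM.of_pc hPC
  rw [spec_two, spec_two, spec_two z] at h2
  have h3 : (z 0 - u) * (z 0 - v) = 0 := by
    linear_combination (z 0) * hz1 - hz2
  rcases mul_eq_zero.1 h3 with h4 | h4
  · have e0 : z 0 = u := by linear_combination h4
    have e1 : z 1 = v := by linear_combination hz1 - h4
    rw [e0, e1] at h2
    exact h2
  · have e0 : z 0 = v := by linear_combination h4
    have e1 : z 1 = u := by linear_combination hz1 - h4
    rw [e0, e1, Multiset.pair_comm v u] at h2
    exact h2

/-- The paths. -/
theorem path (r : ℕ) : ∀ (l : List ℂ) (c : ℂ), l.length = 2 * r + 1 →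
    (∀ u ∈ l, star u * u = 1) → star c * c = 1 →
    ∃ N M : Multiset ℂ, (∀ u ∈ N, star u * u = 1) ∧ (∀ u ∈ M, star u * u = 1) ∧
      PM (N + N.map star + {c * l.prod}) (M + M.map star + {star c}) (l : Multiset ℂ) := by
  induction r with
  | zero =>
    intro l c hl hu hc
    obtain ⟨w, rfl⟩ := List.length_eq_one_iff.1 hl
    refine ⟨0, 0, by simp, by simp, ?_⟩
    simp only [Multiset.map_zero, add_zero, zero_add, List.prod_singleton, Multiset.coe_singleton]
    refine PM.single ?_
    linear_combination (-w) * hc
  | succ r ih =>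
    intro l c hl hu hc
    match l, hl, hu with
    | w :: w' :: l', hl, hu =>
      have hw : star w * w = 1 := hu w (by simp)
      have hw' : star w' * w' = 1 := hu w' (by simp)
      have h1 : star (c * w) * (c * w) = 1 := by
        rw [star_mul']
        linear_combination (star w * w) * hc + hw
      have h2 : star (c * w * w') * (c * w * w') = 1 := by
        rw [star_mul']
        linear_combination (star w' * w') * h1 + hw'
      obtain ⟨N, M, hN, hM, h⟩ := ih l' (c * w * w') (by
        simp only [List.length_cons] at hl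
        omega)
        (fun u hu' => hu u (by simp [hu'])) h2
      refine ⟨{c * w} + N, {c * w * w'} + M, ?_, ?_, ?_⟩
      · intro u hu'
        rw [Multiset.mem_add, Multiset.mem_singleton] at hu'
        rcases hu' with rfl | hu'
        · exact h1
        · exact hN u hu'
      · intro u hu'
        rw [Multiset.mem_add, Multiset.mem_singleton] at hu'
        rcases hu' with rfl | hu'
        · exact h2
        · exact hM u hu'
      · have p1 : PM {c * w} {star c} {w} := PM.single (by linear_combination (-w) * hc)
        have p2 : PM {star (c * w)} {c * w * w'} {w'} :=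
          PM.single (by linear_combination (-w') * h1)
        have p3 := (p1.add p2).add h
        have e1 : {c * w} + {star (c * w)} +
            (N + N.map star + {c * w * w' * l'.prod}) =
            {c * w} + N + ({c * w} + N).map star + {c * (w :: w' :: l').prod} := by
          have : c * (w :: w' :: l').prod = c * w * w' * l'.prod := by
            simp [mul_assoc]
          rw [this, Multiset.map_add, Multiset.map_singleton]
          abel
        have e2 : {star c} + {c * w * w'} + (M + M.map star + {star (c * w * w')}) =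
            {c * w * w'} + M + ({c * w * w'} + M).map star + {star c} := by
          rw [Multiset.map_add, Multiset.map_singleton]
          abel
        have e3 : {w} + {w'} + (l' : Multiset ℂ) = ((w :: w' :: l' : List ℂ) : Multiset ℂ) := by
          rw [← Multiset.cons_coe, ← Multiset.cons_coe, ← Multiset.singleton_add,
            ← Multiset.singleton_add, add_assoc]
        rw [e1, e2, e3] at p3
        exact p3

end Pool.Agent.L0h60.SU4
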